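import Pool.Agent.BEO.Stmts
import Pool.Agent.Helper93_BEB.CFS

/-!
# Squad BEO (MP_be01ff_an), row SPO: the spectrum of the ball in odd dimension
-/

set_option autoImplicit false

namespace Pool.Agent.BEO.H10

open Set Filter Topology MeasureTheory
open scoped InnerProductSpace ENNReal
open Pool.Agent.BE01 Pool.Agent.BEO
open Pool.Agent.BEB (cf hs)

noncomputable section

theorem fin_mu (d : ℕ) (R : ℝ) : IsFiniteMeasure (mu (BB d R)) := by
  constructor
  unfold mu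
  rw [Measure.restrict_apply_univ]
  exact measure_ball_lt_top

theorem ae_BB (d : ℕ) (R : ℝ) : ∀ᵐ x ∂(mu (BB d R)), x ∈ BB d R := by
  unfold mu
  exact ae_restrict_mem Metric.isOpen_ball.measurableSet

theorem mem_BB {d : ℕ} {R : ℝ} {x : En d} (hx : x ∈ BB d R) : ‖x‖ < R := by
  unfold BB at hx
  rwa [mem_ball_zero_iff] at hx

section
variable (EVO : EvoStmt) {d : ℕ} {R : ℝ}
include EVO

theorem ev_memLp (P : Pl d) : MemLp (ev P) 2 (mu (BB d R)) := by
  obtain ⟨h1, _, _, _, _, _, _, h8⟩ := EVO d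
  obtain ⟨C, hC⟩ := h8 P R
  have := fin_mu d R
  refine MemLp.of_bound (C := C) (h1 P).continuous.aestronglyMeasurable ?_
  filter_upwards [ae_BB d R] with x hx
  rw [Real.norm_eq_abs]
  exact hC x (mem_BB hx).le

theorem int_ev (u : Lp ℝ 2 (mu (BB d R))) (P : Pl d) :
    Integrable (fun x => u x * ev P x) (mu (BB d R)) :=
  (Lp.memLp u).integrable_mul (ev_memLp EVO P)

theorem I_add (u : Lp ℝ 2 (mu (BB d R))) (P Q : Pl d) :
    ∫ x, u x * ev (P + Q) x ∂(mu (BB d R)) =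
      ∫ x, u x * ev P x ∂(mu (BB d R)) + ∫ x, u x * ev Q x ∂(mu (BB d R)) := by
  rw [← integral_add (int_ev EVO u P) (int_ev EVO u Q)]
  refine integral_congr_ae (Eventually.of_forall fun x => ?_)
  show u x * ev (P + Q) x = u x * ev P x + u x * ev Q x
  rw [(EVO d).2.2.1]
  ring

theorem I_C (u : Lp ℝ 2 (mu (BB d R))) (c : ℝ) (P : Pl d) :
    ∫ x, u x * ev (MvPolynomial.C c * P) x ∂(mu (BB d R)) =
      c * ∫ x, u x * ev P x ∂(mu (BB d R)) := by
  rw [← integral_const_mul]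
  refine integral_congr_ae (Eventually.of_forall fun x => ?_)
  show u x * ev (MvPolynomial.C c * P) x = c * (u x * ev P x)
  rw [(EVO d).2.2.2.1, (EVO d).2.2.2.2.1]
  ring

end

theorem lap_add {d : ℕ} (P Q : Pl d) : lap (P + Q) = lap P + lap Q := by
  unfold lap
  simp only [map_add, Finset.sum_add_distrib]

theorem lap_C {d : ℕ} (c : ℝ) (P : Pl d) :
    lap (MvPolynomial.C c * P) = MvPolynomial.C c * lap P := by
  unfold lap
  simp only [MvPolynomial.pderiv_C_mul, Finset.mul_sum]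

/-- the functional `L` -/
def LL {d : ℕ} {R : ℝ} (μ : ℝ) (u : Lp ℝ 2 (mu (BB d R))) (P : Pl d) : ℝ :=
  ∫ x, u x * ev (lap P + MvPolynomial.C μ * P) x ∂(mu (BB d R))

/-- the property used of the eigenfunctions -/
def OO {d : ℕ} {R : ℝ} (μ : ℝ) (u : Lp ℝ 2 (mu (BB d R))) : Prop :=
  ∀ Q : Pl d, LL μ u ((rho d - MvPolynomial.C (R ^ 2)) * Q) = 0

section
variable (EVO : EvoStmt) {d : ℕ} {R : ℝ} (μ : ℝ)
include EVO

theorem LL_add (u : Lp ℝ 2 (mu (BB d R))) (P Q : Pl d) :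
    LL μ u (P + Q) = LL μ u P + LL μ u Q := by
  unfold LL
  rw [← I_add EVO]
  have e : lap (P + Q) + MvPolynomial.C μ * (P + Q) =
      lap P + MvPolynomial.C μ * P + (lap Q + MvPolynomial.C μ * Q) := by
    rw [lap_add]
    ring
  rw [e]

theorem LL_C (u : Lp ℝ 2 (mu (BB d R))) (c : ℝ) (P : Pl d) :
    LL μ u (MvPolynomial.C c * P) = c * LL μ u P := by
  unfold LL
  rw [← I_C EVO]
  have e : lap (MvPolynomial.C c * P) + MvPolynomial.C μ * (MvPolynomial.C c * P) =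
      MvPolynomial.C c * (lap P + MvPolynomial.C μ * P) := by
    rw [lap_C]
    ring
  rw [e]

theorem LL_zero (u : Lp ℝ 2 (mu (BB d R))) : LL μ u 0 = 0 := by
  have h := LL_C EVO μ u 0 0
  rw [MvPolynomial.C_0, zero_mul, zero_mul] at h
  exact h

theorem LL_rho (u : Lp ℝ 2 (mu (BB d R))) (hu : OO μ u) (Q : Pl d) :
    LL μ u (rho d * Q) = R ^ 2 * LL μ u Q := by
  have e : rho d * Q = (rho d - MvPolynomial.C (R ^ 2)) * Q + MvPolynomial.C (R ^ 2) * Q := by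
    ring
  rw [e, LL_add EVO, LL_C EVO, hu Q, zero_add]

theorem LL_rho_pow (u : Lp ℝ 2 (mu (BB d R))) (hu : OO μ u) (Q : Pl d)
    (b : ℕ) : LL μ u (rho d ^ b * Q) = (R ^ 2) ^ b * LL μ u Q := by
  induction b with
  | zero =>
    rw [pow_zero, one_mul, pow_zero, one_mul]
  | succ b ih =>
    have e : rho d ^ (b + 1) * Q = rho d * (rho d ^ b * Q) := by ring
    rw [e, LL_rho EVO μ u hu _, ih]
    ring

end

/-- the partial sums -/
def psi {d : ℕ} (L : ℕ) (μ : ℝ) (H : Pl d) (K : ℕ) : Pl d :=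
  ∑ k ∈ Finset.range (K + 1), MvPolynomial.C (cf L k * μ ^ k) * (rho d ^ k * H)

theorem lap_psi (LPO : LpoStmt) (c l : ℕ) (μ : ℝ) (H : Pl (2 * c + 3)) (hH : Har l H) (K : ℕ) :
    lap (psi (l + c) μ H K) + MvPolynomial.C μ * psi (l + c) μ H K =
      MvPolynomial.C (μ * (cf (l + c) K * μ ^ K)) * (rho (2 * c + 3) ^ K * H) := by
  induction K with
  | zero =>
    unfold psi
    rw [Finset.sum_range_one, lap_C, pow_zero, pow_zero, one_mul, hH.2, mul_zero, zero_add,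
      MvPolynomial.C_mul (a := μ), mul_assoc]
  | succ K ih =>
    have e : psi (l + c) μ H (K + 1) = psi (l + c) μ H K +
        MvPolynomial.C (cf (l + c) (K + 1) * μ ^ (K + 1)) * (rho (2 * c + 3) ^ (K + 1) * H) := by
      unfold psi
      rw [Finset.sum_range_succ]
    have hrec := (Pool.Agent.BEB.H93.cfs (l + c)).2.2.1 K
    rw [e, lap_add, lap_C, LPO (2 * c + 3) l K H hH.1 hH.2]
    have e2 : MvPolynomial.C (cf (l + c) (K + 1) * μ ^ (K + 1)) *
        (MvPolynomial.C (2 * ((K : ℝ) + 1) * (2 * ((K : ℝ) + 1) + 2 * l +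
          ((2 * c + 3 : ℕ) : ℝ) - 2)) * (rho (2 * c + 3) ^ K * H)) =
        - (MvPolynomial.C (μ * (cf (l + c) K * μ ^ K)) * (rho (2 * c + 3) ^ K * H)) := by
      rw [← mul_assoc, ← MvPolynomial.C_mul, ← neg_mul, ← MvPolynomial.C_neg]
      have e5 : cf (l + c) (K + 1) * μ ^ (K + 1) *
          (2 * ((K : ℝ) + 1) * (2 * ((K : ℝ) + 1) + 2 * l + ((2 * c + 3 : ℕ) : ℝ) - 2)) =
          -(μ * (cf (l + c) K * μ ^ K)) := by
        have : cf (l + c) (K + 1) * μ ^ (K + 1) *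
            (2 * ((K : ℝ) + 1) * (2 * ((K : ℝ) + 1) + 2 * l + ((2 * c + 3 : ℕ) : ℝ) - 2)) =
            (2 * ((K : ℝ) + 1) * (2 * ((K : ℝ) + 1) + 2 * ((l + c : ℕ) : ℝ) + 1) *
              cf (l + c) (K + 1)) * μ ^ (K + 1) := by
          push_cast
          ring
        rw [this, hrec]
        ring
      rw [e5]
    rw [e2]
    have e3 : MvPolynomial.C (μ * (cf (l + c) (K + 1) * μ ^ (K + 1))) *
        (rho (2 * c + 3) ^ (K + 1) * H) =
        MvPolynomial.C μ * (MvPolynomial.C (cf (l + c) (K + 1) * μ ^ (K + 1)) *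
          (rho (2 * c + 3) ^ (K + 1) * H)) := by
      rw [MvPolynomial.C_mul (a := μ), mul_assoc]
    rw [e3, ← ih]
    ring

section
variable (EVO : EvoStmt) (LPO : LpoStmt) {R x : ℝ} (hR : 0 < R)
  (hx : 0 < x) (c : ℕ)
include EVO LPO hR hx

omit LPO hx in
theorem LL_psi (l : ℕ) (u : Lp ℝ 2 (mu (BB (2 * c + 3) R))) (hu : OO ((x / R) ^ 2) u)
    (H : Pl (2 * c + 3)) (K : ℕ) :
    LL ((x / R) ^ 2) u (psi (l + c) ((x / R) ^ 2) H K) =
      (∑ k ∈ Finset.range (K + 1), cf (l + c) k * x ^ (2 * k)) * LL ((x / R) ^ 2) u H := by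
  have hk : ∀ k : ℕ, LL ((x / R) ^ 2) u
      (MvPolynomial.C (cf (l + c) k * ((x / R) ^ 2) ^ k) * (rho (2 * c + 3) ^ k * H)) =
      cf (l + c) k * x ^ (2 * k) * LL ((x / R) ^ 2) u H := by
    intro k
    rw [LL_C EVO, LL_rho_pow EVO _ u hu H k]
    have e : ((x / R) ^ 2) ^ k * (R ^ 2) ^ k = x ^ (2 * k) := by
      rw [← mul_pow, ← mul_pow, div_mul_cancel₀ x hR.ne', pow_mul]
    calc cf (l + c) k * ((x / R) ^ 2) ^ k * ((R ^ 2) ^ k * LL ((x / R) ^ 2) u H) =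
        cf (l + c) k * (((x / R) ^ 2) ^ k * (R ^ 2) ^ k) * LL ((x / R) ^ 2) u H := by ring
      _ = _ := by rw [e]
  induction K with
  | zero =>
    unfold psi
    rw [Finset.sum_range_one, Finset.sum_range_one]
    exact hk 0
  | succ K ih =>
    have e : psi (l + c) ((x / R) ^ 2) H (K + 1) = psi (l + c) ((x / R) ^ 2) H K +
        MvPolynomial.C (cf (l + c) (K + 1) * ((x / R) ^ 2) ^ (K + 1)) *
          (rho (2 * c + 3) ^ (K + 1) * H) := by
      unfold psi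
      rw [Finset.sum_range_succ]
    rw [e, LL_add EVO, ih, hk, Finset.sum_range_succ _ (K + 1)]
    ring

theorem LL_psi_bound (l : ℕ) (u : Lp ℝ 2 (mu (BB (2 * c + 3) R))) (H : Pl (2 * c + 3))
    (hH : Har l H) :
    ∃ M : ℝ, ∀ K : ℕ, |LL ((x / R) ^ 2) u (psi (l + c) ((x / R) ^ 2) H K)| ≤
      M * |cf (l + c) K * x ^ (2 * K)| := by
  obtain ⟨M, hM⟩ : ∃ M : ℝ, M = ∫ z, |u z * ev H z| ∂(mu (BB (2 * c + 3) R)) := ⟨_, rfl⟩
  refine ⟨(x / R) ^ 2 * M, fun K => ?_⟩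
  unfold LL
  rw [lap_psi LPO c l _ H hH K, I_C EVO, abs_mul]
  have h1 : |∫ z, u z * ev (rho (2 * c + 3) ^ K * H) z ∂(mu (BB (2 * c + 3) R))| ≤
      (R ^ 2) ^ K * M := by
    rw [hM, ← integral_const_mul]
    refine (abs_integral_le_integral_abs).trans ?_
    refine integral_mono_ae (int_ev EVO u _).abs ((int_ev EVO u H).abs.const_mul _) ?_
    filter_upwards [ae_BB (2 * c + 3) R] with z hz
    show |u z * ev (rho (2 * c + 3) ^ K * H) z| ≤ (R ^ 2) ^ K * |u z * ev H z|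
    have e1 : ∀ k : ℕ, ev (rho (2 * c + 3) ^ k * H) z = (‖z‖ ^ 2) ^ k * ev H z := by
      intro k
      induction k with
      | zero => rw [pow_zero, one_mul, pow_zero, one_mul]
      | succ k ihk =>
        have e : rho (2 * c + 3) ^ (k + 1) * H = rho (2 * c + 3) * (rho (2 * c + 3) ^ k * H) := by
          ring
        rw [e, (EVO _).2.2.2.1, ihk, (EVO _).2.2.2.2.2.1]
        ring
    rw [e1 K]
    have e2 : u z * ((‖z‖ ^ 2) ^ K * ev H z) = (‖z‖ ^ 2) ^ K * (u z * ev H z) := by ring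
    rw [e2, abs_mul, abs_of_nonneg (by positivity)]
    apply mul_le_mul_of_nonneg_right _ (abs_nonneg _)
    apply pow_le_pow_left₀ (by positivity)
    apply pow_le_pow_left₀ (norm_nonneg _) (mem_BB hz).le
  have h2 : |(x / R) ^ 2 * (cf (l + c) K * ((x / R) ^ 2) ^ K)| =
      (x / R) ^ 2 * |cf (l + c) K| * ((x / R) ^ 2) ^ K := by
    rw [abs_mul, abs_mul, abs_of_nonneg (by positivity : (0 : ℝ) ≤ (x / R) ^ 2),
      abs_of_nonneg (by positivity : (0 : ℝ) ≤ ((x / R) ^ 2) ^ K)]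
    ring
  have e : ((x / R) ^ 2) ^ K * (R ^ 2) ^ K = x ^ (2 * K) := by
    rw [← mul_pow, ← mul_pow, div_mul_cancel₀ x hR.ne', pow_mul]
  rw [h2]
  calc (x / R) ^ 2 * |cf (l + c) K| * ((x / R) ^ 2) ^ K *
        |∫ z, u z * ev (rho (2 * c + 3) ^ K * H) z ∂(mu (BB (2 * c + 3) R))| ≤
      (x / R) ^ 2 * |cf (l + c) K| * ((x / R) ^ 2) ^ K * ((R ^ 2) ^ K * M) := by
        apply mul_le_mul_of_nonneg_left h1
        positivity
    _ = (x / R) ^ 2 * M * (|cf (l + c) K| * (((x / R) ^ 2) ^ K * (R ^ 2) ^ K)) := by ring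
    _ = (x / R) ^ 2 * M * |cf (l + c) K * x ^ (2 * K)| := by
        rw [e, abs_mul, abs_of_nonneg (by positivity : (0 : ℝ) ≤ x ^ (2 * K))]

theorem LL_har (l : ℕ) (u : Lp ℝ 2 (mu (BB (2 * c + 3) R))) (hu : OO ((x / R) ^ 2) u)
    (H : Pl (2 * c + 3)) (hH : Har l H) :
    hs (l + c) x * LL ((x / R) ^ 2) u H = 0 := by
  have t1 : Tendsto (fun K : ℕ => LL ((x / R) ^ 2) u (psi (l + c) ((x / R) ^ 2) H K)) atTop
      (𝓝 (hs (l + c) x * LL ((x / R) ^ 2) u H)) := by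
    have h := ((Pool.Agent.BEB.H93.cfs (l + c)).2.2.2.1 x).mul_const (LL ((x / R) ^ 2) u H)
    refine h.congr fun K => ?_
    exact (LL_psi EVO hR c l u hu H K).symm
  obtain ⟨M, hM⟩ := LL_psi_bound EVO LPO hR hx c l u H hH
  have t2 : Tendsto (fun K : ℕ => LL ((x / R) ^ 2) u (psi (l + c) ((x / R) ^ 2) H K)) atTop
      (𝓝 0) := by
    have h := (((Pool.Agent.BEB.H93.cfs (l + c)).2.2.2.2 x).abs).const_mul M
    rw [abs_zero, mul_zero] at h
    exact squeeze_zero_norm (fun K => by rw [Real.norm_eq_abs]; exact hM K) h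
  exact tendsto_nhds_unique t1 t2

end

theorem spo (LPO : LpoStmt) (FIO : FioStmt) (SUO : SuoStmt) (EVO : EvoStmt) (DEO : DeoStmt)
    (ORO : OroStmt) : SpoStmt := by
  intro c R x hR hx hl u hu
  have hO : OO ((x / R) ^ 2) u := fun Q =>
    ORO (2 * c + 3) R ((x / R) ^ 2) u Q (by omega) hR hu
  have hH : ∀ (l : ℕ) (H : Pl (2 * c + 3)), Har l H → LL ((x / R) ^ 2) u H = 0 := by
    intro l H hH
    rcases mul_eq_zero.1 (LL_har EVO LPO hR hx c l u hO H hH) with h | h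
    · exact absurd h (hl l)
    · exact h
  have h1 : ∀ P : Pl (2 * c + 3), LL ((x / R) ^ 2) u P = 0 := by
    intro P
    refine Submodule.span_induction (p := fun Q _ => LL ((x / R) ^ 2) u Q = 0) ?_ ?_ ?_ ?_
      (FIO (2 * c + 3) P (by omega))
    · rintro _ ⟨b, l, H, hl, rfl⟩
      rw [LL_rho_pow EVO _ u hO H b, hH l H hl, mul_zero]
    · exact LL_zero EVO _ u
    · intro P Q _ _ hP hQ
      rw [LL_add EVO, hP, hQ, add_zero]
    · intro c P _ hP
      rw [MvPolynomial.smul_eq_C_mul, LL_C EVO, hP, mul_zero]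
  apply DEO (2 * c + 3) R u hR
  intro P
  have hμ : (x / R) ^ 2 ≠ 0 := by positivity
  obtain ⟨ψ, hψP⟩ := SUO (2 * c + 3) ((x / R) ^ 2) P hμ
  have h := h1 ψ
  unfold LL at h
  rw [hψP] at h
  exact h

end

end Pool.Agent.BEO.H10
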